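import Pool.Agent.H68.GHY.Targets
import Pool.Agent.H16.GB.EGD
import Pool.Agent.H55.GB.IN3

/-!
Row EGD of the board ghy: the product estimate for three lattices (from helper16's row EG3D of the
board gb).
-/

set_option autoImplicit false

namespace Pool.Agent.H12.GHY

open Pool.Agent.H34.GM

theorem pf_EGD : Pool.Agent.H68.GHY.T_IND → Pool.Agent.H68.GHY.T_EGD := by
  intro _ m c hm hc
  obtain ⟨C, hC, h⟩ := Pool.Agent.H16.GB.pf_EG3D Pool.Agent.H55.GB.pf_IN3D m c hm hc
  refine ⟨C, hC, fun d U B A Q w hd _ hU hB hA mU mB mA hQ hw a1 a2 b1 b2 b3 => ?_⟩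
  have h1 := h U B A Q w d hU hB hA mU mB mA hQ hw hd a1 a2 b1 b2 b3
  simpa only [mul_div_assoc] using h1

end Pool.Agent.H12.GHY
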